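import Mathlib

/-!
Cantor realizations of orbit equivalence relations: definitions.
-/

set_option autoImplicit false

open Set Topology Filter TopologicalSpace

namespace Pool.Agent.Helper43.CR

/-- The covering dimension of the space `X` is at most `d`: every finite open cover has a finite
open refinement such that every point lies in at most `d + 1` of its members. -/
def CovDimLE (X : Type) [TopologicalSpace X] (d : ℕ) : Prop :=
  ∀ (m : ℕ) (U : Fin m → Set X), (∀ i, IsOpen (U i)) → (⋃ i, U i) = univ →
    ∃ (k : ℕ) (V : Fin k → Set X), (∀ j, IsOpen (V j)) ∧ (⋃ j, V j) = univ ∧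
      (∀ j, ∃ i, V j ⊆ U i) ∧ ∀ x, {j | x ∈ V j}.ncard ≤ d + 1

section germs

variable {K Γ : Type} [TopologicalSpace K] [Group Γ] [MulAction Γ K]

/-- `g` and `h` act in the same way near `x`. -/
def SameGerm (g h : Γ) (x : K) : Prop := ∀ᶠ y in 𝓝 x, g • y = h • y

/-- Up to equality of germs at `x`, only finitely many elements of the group fix `x`. -/
def FiniteIsotropy (Γ : Type) [Group Γ] [MulAction Γ K] (x : K) : Prop :=
  ∃ Φ : Set Γ, Φ.Finite ∧ ∀ g : Γ, g • x = x → ∃ h ∈ Φ, SameGerm g h x

/-- The zero-dimensional extension of `K` cut along the zero sets of the functions `f n` and their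
translates. -/
def SSet (Γ : Type) [Group Γ] [MulAction Γ K] (f : ℕ → C(K, ℝ)) :
    Set (K × (ℕ × Γ → Bool)) :=
  {p | (∀ n (g : Γ), (p.2 (n, g) = true → 0 ≤ f n (g • p.1)) ∧
      (p.2 (n, g) = false → f n (g • p.1) ≤ 0)) ∧
    ∀ n (g h : Γ), SameGerm g h p.1 → p.2 (n, g) = p.2 (n, h)}

end germs

end Pool.Agent.Helper43.CR
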